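import Pool.Agent.R818.Cleave

/-!
# A compactum cleavable over an ordinal but not embeddable in it

With `β = ω₁ · ω`, three disjoint copies of `β + 1` are cleavable over `β + β + 1` but do not embed.
-/

set_option autoImplicit false

open Topology Ordinal

namespace Pool.Agent.Results.MP_23516e_gt.NotEmbeddable

open Pool.Agent.R818.Cleave

theorem result : ∃ lam : Ordinal.{0}, ω₁ < lam ∧ ∃ (X : Type 1) (_ : TopologicalSpace X),
    CompactSpace X ∧ T2Space X ∧ Infinite X ∧ CleavableOver X (Set.Iio lam) ∧
    ¬ ∃ e : X → Set.Iio lam, IsEmbedding e :=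
  ⟨lam, omega_one_lt_lam, X, inferInstance, inferInstance, inferInstance,
    Infinite.of_injective (q 0) (q_injective 0), cleavable, no_embedding⟩

end Pool.Agent.Results.MP_23516e_gt.NotEmbeddable
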